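import Mathlib
import Pool.Agent.Y141.ZC.KA
import Pool.Agent.Y141.ZC.KAb

/-! Project Y826/Z, task KA: meaning of the final sums. -/

set_option autoImplicit false

open Finset

namespace Pool.Agent.Y141.ZC

open Pool.Agent.Y826.ZC
open Pool.Agent.H95R2.BG.Cert (pk cf pkS nrm G1 G2 look dc dc_spec pk_zero_fun pk_base_zero)

theorem KAm_gen (Bb : ℕ) (leaf : ℕ → ℕ → ℕ → ℕ → ℕ → ℕ → ℕ → ℕ) (a b c d e f : ℕ)
    (u1 u2 u3 v1 v2 v3 : ℕ → ℕ) (ha : a = pk 1408 16384 u1) (hb : b = pk 1408 16384 u2)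
    (hc : c = pk 1408 16384 u3) (hd : d = pk Bb 16384 v1) (he : e = pk Bb 16384 v2)
    (hf : f = pk Bb 16384 v3) (h1 : ∀ i < 16384, u1 i < 2 ^ 1408)
    (h2 : ∀ i < 16384, u2 i < 2 ^ 1408) (h3 : ∀ i < 16384, u3 i < 2 ^ 1408)
    (k1 : ∀ i < 16384, v1 i < 2 ^ Bb) (k2 : ∀ i < 16384, v2 i < 2 ^ Bb)
    (k3 : ∀ i < 16384, v3 i < 2 ^ Bb) :
    dc 0 1408 Bb leaf 14 0 a b c d e f =
      ∑ n ∈ range 16384, leaf n (u1 n) (u2 n) (u3 n) (v1 n) (v2 n) (v3 n) := by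
  have h14 : (2 : ℕ) ^ 14 = 16384 := by norm_num
  have h := dc_spec 0 1408 Bb leaf 14 0 u1 u2 u3 v1 v2 v3
  rw [h14] at h
  rw [ha, hb, hc, hd, he, hf, h h1 h2 h3 k1 k2 k3, pk_base_zero]
  refine sum_congr rfl fun n _ => ?_
  rw [Nat.zero_add]

theorem KAm_zero : (0 : ℕ) = pk 1 16384 (fun _ => 0) := (pk_zero_fun 1 16384).symm

theorem KAm_zero_lt : ∀ i < 16384, (fun _ : ℕ => (0 : ℕ)) i < 2 ^ 1 := fun _ _ => by norm_num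

theorem LL_eq (q : ℕ → ℕ) (hq : Wq q) (T T' : ℕ) :
    LL q T T' = ∑ n ∈ range 16384, leafK T T' n (cf (Ps q ^ 44) n) (cf (G1 44 (Ps q) (Ps1 q)) n)
      (cf (G2 44 (Ps q) (Ps1 q) (Ps2 q)) n) (ap n) (am n) (bb n) := by
  delta LL
  exact KAm_gen 128 (leafK T T') (P44 q) (E1 q) (E2 q) AP AM BB (cf (Ps q ^ 44))
    (cf (G1 44 (Ps q) (Ps1 q))) (cf (G2 44 (Ps q) (Ps1 q) (Ps2 q))) ap am bb
    (KA_P44 q hq) (KA_E1 q hq) (KA_E2 q hq) AP_eq AM_eq BB_eq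
    (fun i hi => KA_digP q hq 44 i (by norm_num) hi)
    (fun i hi => KA_digG1 q hq 44 i (by norm_num) hi)
    (fun i hi => KA_digG2 q hq 44 i (by norm_num) hi) digAP digAM digBB

theorem KAm_q0 : Wq q0 := fun i _ => Nat.le_succ (g i * g i)

theorem PS_eq : PS = ∑ n ∈ range 16384, (hh T0 n * hh T0 n * cf (Ps q0 ^ 45) n +
    hh T1 n * hh T1 n * cf (G2 45 (Ps q0) (Ps1 q0) (Ps2 q0)) n) := by
  delta PS
  exact KAm_gen 1 leafP (P45 q0) (F1 q0) (F2 q0) 0 0 0 (cf (Ps q0 ^ 45))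
    (cf (G1 45 (Ps q0) (Ps1 q0))) (cf (G2 45 (Ps q0) (Ps1 q0) (Ps2 q0)))
    (fun _ => 0) (fun _ => 0) (fun _ => 0) (KA_P45 q0 KAm_q0) (KA_F1 q0 KAm_q0)
    (KA_F2 q0 KAm_q0) KAm_zero KAm_zero KAm_zero
    (fun i hi => KA_digP q0 KAm_q0 45 i (by norm_num) hi)
    (fun i hi => KA_digG1 q0 KAm_q0 45 i (by norm_num) hi)
    (fun i hi => KA_digG2 q0 KAm_q0 45 i (by norm_num) hi) KAm_zero_lt KAm_zero_lt KAm_zero_lt

theorem MS_eq : MS = ∑ n ∈ range 16384, 2 * (hh T0 n * hh T1 n) *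
    cf (G1 45 (Ps q0) (Ps1 q0)) n := by
  delta MS
  exact KAm_gen 1 leafM (P45 q0) (F1 q0) (F2 q0) 0 0 0 (cf (Ps q0 ^ 45))
    (cf (G1 45 (Ps q0) (Ps1 q0))) (cf (G2 45 (Ps q0) (Ps1 q0) (Ps2 q0)))
    (fun _ => 0) (fun _ => 0) (fun _ => 0) (KA_P45 q0 KAm_q0) (KA_F1 q0 KAm_q0)
    (KA_F2 q0 KAm_q0) KAm_zero KAm_zero KAm_zero
    (fun i hi => KA_digP q0 KAm_q0 45 i (by norm_num) hi)
    (fun i hi => KA_digG1 q0 KAm_q0 45 i (by norm_num) hi)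
    (fun i hi => KA_digG2 q0 KAm_q0 45 i (by norm_num) hi) KAm_zero_lt KAm_zero_lt KAm_zero_lt

/-- task KA -/
theorem ka : S_KA := ⟨fun q hq T T' => LL_eq q hq T T', PS_eq, MS_eq⟩

end Pool.Agent.Y141.ZC
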